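import Pool.Agent.H85.SigmaHom

set_option autoImplicit false

namespace Pool.Agent.Results.MP_5382b1_gt.TwoGroups

open Pool.Agent.H85.SigmaHomDefs

/-- There is a zero-dimensional sigma-homogeneous rigid separable metrizable space. -/
theorem result : ∃ (X : Type) (_ : TopologicalSpace X),
    IsZeroDimSpace X ∧ IsSigmaHomogeneous X ∧ IsRigid X := by
  obtain ⟨X, h1, h2, h3, _⟩ := Pool.Agent.H85.SigmaHom.main
  exact ⟨X, inferInstance, h1, h2, h3⟩

end Pool.Agent.Results.MP_5382b1_gt.TwoGroups
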